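import Pool.Agent.helper14.NS.Q200e.PZ

/-!
Generated: certificates.
-/

namespace Pool.Agent.helper14.NS.Q200e

open Pool.Agent.helper31.IA (Z)
open Pool.Agent.helper31.IX (Op XOps runX Cov CovD cov_split covD_split)
open Pool.Agent.helper31.IC (TD)
open Pool.Agent.helper63.RG (reloc)
open Pool.Agent.helper63.NF hiding TD
open Pool.Agent.helper4.NS
open Pool.Agent.helper14.CF (xE covD_E)
open Pool.Agent.helper14.NR (share)

mutual
theorem Z_c0 : CovD 1 gZ [(5039456256, 458227712), (2473901162496, 274877906944), (472849055744, 472849055744)] :=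
  covD_E kZ_eq (.n 2 (.n 2 (.n 2 (.n 2 (.l 0) (.l 0)) (.n 2 (.l 0) (.l 0))) (.n 2 (.n 2 (.l 0) (.l 0)) (.n 2 (.l 0) (.l 0)))) (.n 2 (.n 2 (.l 0) (.n 2 (.l 0) (.l 0))) (.n 2 (.n 2 (.l 0) (.l 0)) (.n 2 (.l 0) (.l 0)))))
    [(5039456256, 458227712), (2473901162496, 274877906944), (472849055744, 472849055744)] rfl (by decide +kernel)
theorem T_c0 : CovD 1 gT [(5039456256, 458227712), (2473901162496, 274877906944)] :=
  covD_E kT_eq (.l 0)
    [(5039456256, 458227712), (2473901162496, 274877906944)] rfl (by decide +kernel)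
end

theorem S_c0 : CovD 0 gS [(5039456256, 458227712), (2473901162496, 274877906944)] :=
  covD_E kS_eq (.l 0)
    [(5039456256, 458227712), (2473901162496, 274877906944)] rfl (by decide +kernel)


end Pool.Agent.helper14.NS.Q200e
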