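import Pool.Agent.helper14.NS.Cert

/-!
Generated: table Q200e.
-/

namespace Pool.Agent.helper14.NS.Q200e

open Pool.Agent.helper63.NF Pool.Agent.helper4.NS

def tab : TD where
  strip := false
  bm := none
  ec := 5033164800
  bc := 2473901162496
  H := [[[-7185032768, 7601561664, -1944588032, -121872896], [-1195127897216, -1021527977920], [13186357371008]], [[-155673408, -220551040, 479011200], [201878259584, -25346053632]], [[253046976, -70052992, -118393664], [-7580952192]], [[-41146496, 17278720], [-169828160]], [[3583616, -1096640]], [[-172864]], [[3840]]]
  pol := some ⟨-1501091069952, -163964671492096, 5872294035456, 31362867265536, [[9435805696, -44553786752], [-2667881949568, 0]], [[385537198720, -53742024064], [86581424212864, 0]]⟩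
  a := [[[341244248064, -4597547008, 2005991424, -2089746432], [2861460815872, 1060881629184]], [[118707453952, -21740584960, 12922126336, -44886065152], [16206513438720, 4587849121792]], [[137867886592, -28779282432, 8179810304, -16395337728], [19580379332608, 15582587518976]], [[157609558016, -33508360192, 7922647040, 3139567616], [21655541907456, 27372340379648]], [[182263087104, -36341678080, 4247191552, 31186616320], [22012338700288, 38260868972544]]]
  j := [2061584302080, 51814485458944, 68719476736000, 79577154060288, 86586540687360]
  c := [659814350848, 549755813888, 439697276928, 329907175424, 219848638464]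
  M := [[[[1098664771584, -656211968, -1982529536], [-600780111872, 1770798252032], [478483164299264]], [[18011389952, 9358409728], [5386528686080]], [[-18372296704, -15134097408], [2121577594880]], [[85494661120]], [[-114102108160]], [[53822160896]]], [[[1100996280320, 635174912, 1093861376], [555629150208]], [[2472869888, 14876672], [525175685120]], [[-40632320]], [[3342336]]], [[[1101078462464, 367984640, -204144640], [492221693952]], [[2339897344, 48103424], [511986499584]], [[-8388608]], [[1507328]]], [[[1101513293824, 437583872, -1192099840], [347685060608]], [[2288975872, 13631488], [521987948544]], [[23724032]], [[-393216]]], [[[1100993527808, 713490432, -2231631872], [282379616256]], [[2346057728, 44564480], [531266404352]], [[19922944]], [[-458752]]]]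
  l0 := [[[3511342743744, 54998327680], [10662882926656]], [[1707562099584, -41359784640], [-23185306549120]], [[663450423232, 44841664896], [-12595691716352]], [[699968983040, -812656708800], [-240241175572480]], [[-1322917098048, 1106825948352], [301248272300416]], [[6146823282304, -1268157872704], [-387741245495424]], [[-13632150288320]], [[29256212440640]], [[-42268378120256]], [[51205616682240]], [[-35072522613952]], [[18462257790272]]]
  q0 := [[45606665472, 20746281728, 1589471296], [10055088183552, 5433001743040], [234793854565120]]
  t := [[[1226337812480, 71326236672, -220324888576, -1239416832], [8612648910848, -129766587236352]], [[252709896192, 615251968, 56288346112, 34411839488], [14325207531520, 6892212781056]], [[233269493760, -1749090304, 66045673472, -9890955264], [6294410166272, 35443888553984]], [[232042725376, -15907225600, 63915032576, -12773294080], [-1400700796928, 41922335014912]], [[257068630016, -35943350272, 11076567040, 22571909120], [-18365790486528, 53738167730176]]]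
  y := [10174777524224, 12651899912192, 15242838933504, 17945447104512, 20759724425216]
  sc := [0, 0, 0, 0, 0]
  L := [(0, 2), (0, 3), (1, 1), (2, 0)]
  Lt := [(0, 2), (0, 3), (1, 1)]
  far := 4
  x2 := 10995116277760
  B1 := 1979120091136
  C2 := 1701624829952
  f1 := 0
  f2 := 0
  f3 := 0
  is1 := 8796093022208
  s1 := 137438953472

end Pool.Agent.helper14.NS.Q200e
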